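import Pool.Agent.Helper68.SG.Defs

set_option autoImplicit false

namespace Pool.Agent.Helper18.SG

open Pool.Agent.Helper68.SG

private theorem exists_pp (e : ℕ → ℕ) :
    ∃ pp : ℕ → ℕ, ∀ i, (pp i).Prime ∧ 2 ^ e i < pp i ∧ pp i ≤ 2 ^ (e i + 1) := by
  have h : ∀ i, ∃ p : ℕ, p.Prime ∧ 2 ^ e i < p ∧ p ≤ 2 ^ (e i + 1) := by
    intro i
    obtain ⟨p, hp, h1, h2⟩ := Nat.exists_prime_lt_and_le_two_mul (2 ^ e i) (by positivity)
    exact ⟨p, hp, h1, by rw [pow_succ]; omega⟩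
  choose pp hpp using h
  exact ⟨pp, hpp⟩

/-- file `Params.lean` -/
theorem params (n : ℕ) : ∃ (p : Par) (S : ℕ) (kk dd W pp : ℕ → ℕ), n ≤ p.n ∧ p.Ok ∧
    (∀ i, (pp i).Prime) ∧
    (∀ i, 1 ≤ W i ∧ W i * p.len i = p.P i) ∧
    (∀ i, kk i * W i < pp i) ∧
    (∀ i, p.B * (dd i + 1) < kk i) ∧
    (p.P 0 * 2 * 2 ^ S ≤ pp 0 ^ dd 0) ∧
    (∀ i, 1 ≤ i → (p.P 0 * 2 * 2 ^ S * pp 0 * p.q ^ kk 0) ^ p.len i ≤ pp i ^ dd i) ∧
    (∀ i, 2 ^ (2 * i + 1) ∣ p.nu i ∧ 0 < p.nu i ∧
      p.q ^ (kk i * pp i) ≤ (2 ^ S) ^ (p.nu i / 2 ^ (2 * i + 1))) ∧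
    (∀ i, 1 ≤ i → 2 ^ (2 * i) ∣ p.len i ∧ 0 < p.len i ∧
      W i * pp i * p.q ^ kk i ≤ (2 ^ S) ^ (p.len i / 2 ^ (2 * i))) := by
  obtain ⟨N, hN⟩ : ∃ N, n ≤ 2 ^ N := ⟨n, (Nat.lt_two_pow_self).le⟩
  -- the exponents
  obtain ⟨E, hEdef⟩ : ∃ E : ℕ → ℕ, ∀ i, E i = 2 ^ (97 + 20 * N + (N + 4) * i) :=
    ⟨_, fun i => rfl⟩
  have hEbig : ∀ i, 190 + 40 * N + (2 * N + 8) * i ≤ E i := by
    intro i
    rw [hEdef]
    have h1 : 96 + 20 * N + (N + 4) * i < 2 ^ (96 + 20 * N + (N + 4) * i) :=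
      Nat.lt_two_pow_self
    have h2 : 2 ^ (97 + 20 * N + (N + 4) * i) = 2 * 2 ^ (96 + 20 * N + (N + 4) * i) := by
      rw [← pow_succ']; congr 1; ring
    rw [h2]
    nlinarith
  have hEsucc : ∀ i, 2 * E i ≤ E (i + 1) := by
    intro i
    rw [hEdef, hEdef, ← pow_succ']
    apply Nat.pow_le_pow_right (by norm_num)
    nlinarith
  obtain ⟨pp, hpp⟩ := exists_pp E
  -- n_i and e_i
  obtain ⟨ni, hni⟩ : ∃ ni : ℕ → ℕ, ∀ i, ni i + (100 + 20 * N) = E i + (24 + 5 * N + 4 * i) := by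
    refine ⟨fun i => E i + (24 + 5 * N + 4 * i) - (100 + 20 * N), fun i => ?_⟩
    have := hEbig i
    have h2 : 0 ≤ (2 * N + 8) * i := Nat.zero_le _
    show E i + (24 + 5 * N + 4 * i) - (100 + 20 * N) + (100 + 20 * N) = _
    omega
  obtain ⟨w, hw⟩ : ∃ w : ℕ → ℕ, ∀ i, w i + (N + 6) * i = ni i + 10 + N := by
    refine ⟨fun i => ni i + 10 + N - (N + 6) * i, fun i => ?_⟩
    have h1 := hEbig i
    have h2 := hni i
    have h3 : (2 * N + 8) * i = (N + 6) * i + (N + 2) * i := by ring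
    have h4 : 0 ≤ (N + 2) * i := Nat.zero_le _
    show ni i + 10 + N - (N + 6) * i + (N + 6) * i = _
    omega
  let p : Par :=
    { n := 2 ^ N
      r := 2 ^ (N + 6)
      e := fun i => ni i + 10 + N
      nu := fun i => 2 ^ ni i
      q := 2 ^ (2 ^ N) }
  have hlen : ∀ i, p.len i = 2 ^ ((N + 6) * i) := by
    intro i
    show (2 ^ (N + 6)) ^ i = _
    rw [pow_mul]
  have hP : ∀ i, p.P i = 2 ^ (ni i + 10 + N) := fun i => rfl
  have hnu : ∀ i, p.nu i = 2 ^ ni i := fun i => rfl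
  have hq : p.q = 2 ^ (2 ^ N) := rfl
  have hlog : ∀ i, 2 ^ (22 + 5 * N + 2 * i) ≤ 2 ^ (97 + 20 * N + (N + 4) * i) := by
    intro i
    apply Nat.pow_le_pow_right (by norm_num)
    nlinarith
  refine ⟨p, 2 ^ (100 + 20 * N), fun i => 2 ^ (22 + 4 * N + 2 * i), fun i => 2 ^ (5 + 2 * i),
    fun i => 2 ^ w i, pp, hN, ?_, fun i => (hpp i).1, ?_, ?_, ?_, ?_, ?_, ?_, ?_⟩
  · refine
      { n_pos := Nat.one_le_two_pow
        r_ge := ?_
        q_gt := ?_
        len_dvd_nu := ?_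
        len_succ_dvd := ?_
        nu_dvd := ?_
        nu_ge := ?_
        P_ge := ?_
        P_succ := ?_ }
    · show 16 * 2 ^ N ≤ 2 ^ (N + 6)
      rw [pow_add]; omega
    · show 2 ^ N < 2 ^ (2 ^ N)
      exact Nat.pow_lt_pow_right (by norm_num) Nat.lt_two_pow_self
    · intro i
      rw [hlen, hnu]
      apply pow_dvd_pow
      have h1 := hEbig i
      have h2 := hni i
      have h3 : (2 * N + 8) * i = (N + 6) * i + (N + 2) * i := by ring
      have h4 : 0 ≤ (N + 2) * i := Nat.zero_le _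
      omega
    · intro i
      rw [hlen, hP]
      apply pow_dvd_pow
      have h1 := hEbig i
      have h2 := hni i
      have h3 : (2 * N + 8) * i = (N + 6) * i + (N + 2) * i := by ring
      have h4 : 0 ≤ (N + 2) * i := Nat.zero_le _
      have h5 : (N + 6) * (i + 1) = (N + 6) * i + N + 6 := by ring
      omega
    · intro i
      rw [hnu, hP]
      apply pow_dvd_pow
      omega
    · intro i
      show 32 * (2 ^ N) ^ 2 * (2 ^ (N + 6)) ^ (i + 1) ≤ 2 ^ ni i
      have h0 : 32 * (2 ^ N) ^ 2 * (2 ^ (N + 6)) ^ (i + 1) =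
          2 ^ (5 + 2 * N + (N + 6) * (i + 1)) := by
        have e1 : (2 ^ (N + 6)) ^ (i + 1) = 2 ^ ((N + 6) * (i + 1)) := (pow_mul _ _ _).symm
        have e2 : (2 ^ N) ^ 2 = 2 ^ (2 * N) := by rw [← pow_mul, mul_comm]
        have e3 : (32 : ℕ) = 2 ^ 5 := by norm_num
        rw [e1, e2, e3, ← pow_add, ← pow_add]
      rw [h0]
      apply Nat.pow_le_pow_right (by norm_num)
      have h1 := hEbig i
      have h2 := hni i
      have h3 : (2 * N + 8) * i = (N + 6) * i + (N + 2) * i := by ring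
      have h4 : 0 ≤ (N + 2) * i := Nat.zero_le _
      have h5 : (N + 6) * (i + 1) = (N + 6) * i + N + 6 := by ring
      omega
    · intro i
      show 1024 * 2 ^ N * 2 ^ ni i ≤ 2 ^ (ni i + 10 + N)
      have : 2 ^ (ni i + 10 + N) = 1024 * 2 ^ N * 2 ^ ni i := by
        rw [pow_add, pow_add]; ring
      rw [this]
    · intro i
      show 4 * 2 ^ N * 2 ^ (ni i + 10 + N) ≤ 2 ^ (ni (i + 1) + 10 + N)
      have : 4 * 2 ^ N * 2 ^ (ni i + 10 + N) = 2 ^ (2 + N + (ni i + 10 + N)) := by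
        rw [pow_add 2 (2 + N), pow_add 2 2 N]; norm_num
      rw [this]
      apply Nat.pow_le_pow_right (by norm_num)
      have h1 := hEbig i
      have h2 := hni i
      have h3 := hni (i + 1)
      have h4 := hEsucc i
      have h5 : 0 ≤ (2 * N + 8) * i := Nat.zero_le _
      omega
  · intro i
    refine ⟨Nat.one_le_two_pow, ?_⟩
    rw [hlen, hP, ← pow_add, hw]
  · intro i
    refine lt_of_le_of_lt ?_ (hpp i).2.1
    show 2 ^ (22 + 4 * N + 2 * i) * 2 ^ w i ≤ 2 ^ E i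
    rw [← pow_add]
    apply Nat.pow_le_pow_right (by norm_num)
    have h1 := hEbig i
    have h2 := hni i
    have h3 := hw i
    have h4 : (N + 6) * i = N * i + 6 * i := by ring
    have h5 : 0 ≤ N * i := Nat.zero_le _
    omega
  · intro i
    show 512 * (2 ^ N) ^ 3 * 2 ^ (N + 6) * (2 ^ (5 + 2 * i) + 1) < 2 ^ (22 + 4 * N + 2 * i)
    have h0 : 512 * (2 ^ N) ^ 3 * 2 ^ (N + 6) = 2 ^ (15 + 4 * N) := by
      rw [pow_add, pow_add, mul_comm 4 N, pow_mul 2 N 4]; ring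
    have h1 : 2 ^ (5 + 2 * i) + 1 ≤ 2 ^ (6 + 2 * i) := by
      have : 2 ^ (6 + 2 * i) = 2 * 2 ^ (5 + 2 * i) := by rw [← pow_succ']; congr 1; ring
      have h3 : 1 ≤ 2 ^ (5 + 2 * i) := Nat.one_le_two_pow
      omega
    rw [h0]
    calc 2 ^ (15 + 4 * N) * (2 ^ (5 + 2 * i) + 1) ≤ 2 ^ (15 + 4 * N) * 2 ^ (6 + 2 * i) :=
          Nat.mul_le_mul_left _ h1
      _ = 2 ^ (21 + 4 * N + 2 * i) := by rw [← pow_add]; congr 1; ring
      _ < 2 ^ (22 + 4 * N + 2 * i) := Nat.pow_lt_pow_right (by norm_num) (by omega)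
  · -- cardinality at level 0
    have hS : 2 ^ (100 + 20 * N) = 8 * E 0 := by
      rw [hEdef]
      have : 100 + 20 * N = (97 + 20 * N + (N + 4) * 0) + 3 := by ring
      rw [this, pow_add]; ring
    have h1 : (2 ^ E 0) ^ (2 ^ (5 + 2 * 0)) ≤ pp 0 ^ (2 ^ (5 + 2 * 0)) :=
      Nat.pow_le_pow_left (hpp 0).2.1.le _
    refine le_trans ?_ h1
    rw [hP, ← pow_mul, mul_assoc, ← pow_succ', ← pow_add]
    apply Nat.pow_le_pow_right (by norm_num)
    have h2 := hni 0
    have h3 := hEbig 0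
    norm_num at *
    omega
  · intro i hi
    have hS : 2 ^ (100 + 20 * N) = 8 * E 0 := by
      rw [hEdef]
      have : 100 + 20 * N = (97 + 20 * N + (N + 4) * 0) + 3 := by ring
      rw [this, pow_add]; ring
    have h1 : (2 ^ E i) ^ (2 ^ (5 + 2 * i)) ≤ pp i ^ (2 ^ (5 + 2 * i)) :=
      Nat.pow_le_pow_left (hpp i).2.1.le _
    refine le_trans ?_ h1
    have h2 : p.P 0 * 2 * 2 ^ (2 ^ (100 + 20 * N)) * pp 0 * p.q ^ (2 ^ (22 + 4 * N + 2 * 0)) ≤
        2 ^ (32 * E 0) := by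
      calc p.P 0 * 2 * 2 ^ (2 ^ (100 + 20 * N)) * pp 0 * p.q ^ (2 ^ (22 + 4 * N + 2 * 0))
          ≤ p.P 0 * 2 * 2 ^ (2 ^ (100 + 20 * N)) * 2 ^ (E 0 + 1) *
            p.q ^ (2 ^ (22 + 4 * N + 2 * 0)) := by
              gcongr
              exact (hpp 0).2.2
        _ = 2 ^ ((ni 0 + 10 + N) + 1 + 2 ^ (100 + 20 * N) + (E 0 + 1) +
              2 ^ N * 2 ^ (22 + 4 * N + 2 * 0)) := by
              rw [hP, hq, ← pow_mul, ← pow_succ, ← pow_add, ← pow_add, ← pow_add]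
        _ ≤ 2 ^ (32 * E 0) := by
              apply Nat.pow_le_pow_right (by norm_num)
              have h4 := hlog 0
              rw [← hEdef 0] at h4
              have h5 : 2 ^ N * 2 ^ (22 + 4 * N + 2 * 0) = 2 ^ (22 + 5 * N + 2 * 0) := by
                rw [← pow_add]; congr 1; ring
              rw [h5, hS]
              have h6 := hni 0
              have h7 := hEbig 0
              omega
    calc (p.P 0 * 2 * 2 ^ (2 ^ (100 + 20 * N)) * pp 0 * p.q ^ (2 ^ (22 + 4 * N + 2 * 0))) ^ p.len i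
        ≤ (2 ^ (32 * E 0)) ^ p.len i := Nat.pow_le_pow_left h2 _
      _ = (2 ^ E i) ^ (2 ^ (5 + 2 * i)) := by
          rw [← pow_mul, ← pow_mul, hlen]
          congr 1
          rw [hEdef, hEdef, ← pow_add]
          have : (32 : ℕ) = 2 ^ 5 := by norm_num
          rw [this, ← pow_add, ← pow_add]
          congr 1
          ring
  · intro i
    refine ⟨?_, Nat.two_pow_pos _, ?_⟩
    · rw [hnu]
      apply pow_dvd_pow
      have h1 := hEbig i
      have h2 := hni i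
      have h4 : 0 ≤ (2 * N + 8) * i := Nat.zero_le _
      omega
    · rw [hnu, hq]
      have h0 : 2 * i + 1 ≤ ni i := by
        have h1 := hEbig i
        have h2 := hni i
        have h4 : 0 ≤ (2 * N + 8) * i := Nat.zero_le _
        omega
      rw [Nat.pow_div h0 (by norm_num), ← pow_mul, ← pow_mul, ← pow_add]
      apply Nat.pow_le_pow_right (by norm_num)
      calc 2 ^ N * (2 ^ (22 + 4 * N + 2 * i) * pp i)
          ≤ 2 ^ N * (2 ^ (22 + 4 * N + 2 * i) * 2 ^ (E i + 1)) := by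
            gcongr
            exact (hpp i).2.2
        _ = 2 ^ (N + (22 + 4 * N + 2 * i + (E i + 1))) := by
            rw [pow_add 2 N, pow_add 2 (22 + 4 * N + 2 * i)]
        _ ≤ 2 ^ (100 + 20 * N + (ni i - (2 * i + 1))) := by
            apply Nat.pow_le_pow_right (by norm_num)
            have h2 := hni i
            omega
  · intro i hi
    have hle : 2 * i ≤ (N + 6) * i := by nlinarith
    refine ⟨?_, ?_, ?_⟩
    · rw [hlen]
      exact pow_dvd_pow _ hle
    · rw [hlen]; positivity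
    · rw [hlen, hq, Nat.pow_div hle (by norm_num)]
      calc 2 ^ w i * pp i * (2 ^ 2 ^ N) ^ (2 ^ (22 + 4 * N + 2 * i))
          ≤ 2 ^ w i * 2 ^ (E i + 1) * (2 ^ 2 ^ N) ^ (2 ^ (22 + 4 * N + 2 * i)) := by
            gcongr
            exact (hpp i).2.2
        _ = 2 ^ (w i + (E i + 1) + 2 ^ (22 + 5 * N + 2 * i)) := by
            rw [← pow_mul, ← pow_add, ← pow_add, ← pow_add]
            congr 3
            ring
        _ ≤ 2 ^ (8 * E i) := by
            apply Nat.pow_le_pow_right (by norm_num)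
            have h4 := hlog i
            rw [← hEdef i] at h4
            have h1 := hEbig i
            have h2 := hni i
            have h3 := hw i
            have h5 : (2 * N + 8) * i = (N + 6) * i + (N + 2) * i := by ring
            have h6 : (N + 6) * i = N * i + 6 * i := by ring
            have h7 : 0 ≤ (N + 2) * i := Nat.zero_le _
            have h8 : 0 ≤ N * i := Nat.zero_le _
            omega
        _ = (2 ^ (2 ^ (100 + 20 * N))) ^ (2 ^ ((N + 6) * i - 2 * i)) := by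
            rw [← pow_mul, ← pow_add]
            congr 1
            rw [hEdef]
            have h8 : (8 : ℕ) = 2 ^ 3 := by norm_num
            rw [h8, ← pow_add]
            congr 1
            have h6 : (N + 6) * i - 2 * i = (N + 4) * i := by
              have : (N + 6) * i = (N + 4) * i + 2 * i := by ring
              omega
            rw [h6]
            ring

end Pool.Agent.Helper18.SG
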