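import Pool.Agent.Helper68.SG.Defs

set_option autoImplicit false

namespace Pool.Agent.Helper18.SG

open Pool.Agent.Helper68.SG

section Rees

variable {A : Type} (L : Set (List A))

/-- The Rees quotient of the free semigroup on `A` by the words outside `L`. -/
def RQ : Type := Option {l : List A // l ∈ L ∧ l ≠ []}

open Classical in
/-- The class of a word. -/
noncomputable def mk (l : List A) : RQ L := if h : l ∈ L ∧ l ≠ [] then some ⟨l, h⟩ else none

theorem mk_of_mem {l : List A} (h : l ∈ L ∧ l ≠ []) : mk L l = some ⟨l, h⟩ := by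
  unfold mk; rw [dif_pos h]

theorem mk_of_not_mem {l : List A} (h : ¬ (l ∈ L ∧ l ≠ [])) : mk L l = none := by
  unfold mk; rw [dif_neg h]

/-- The product. -/
noncomputable def rmul : RQ L → RQ L → RQ L
  | some a, some b => mk L (a.1 ++ b.1)
  | _, _ => none

theorem rmul_none (a : RQ L) : rmul L a none = none := by
  cases a <;> rfl

theorem none_rmul (a : RQ L) : rmul L none a = none := by
  cases a <;> rfl

variable {L} (hfac : ∀ w ∈ L, ∀ z : List A, z <:+: w → z ∈ L)

include hfac in
theorem rmul_mk {a b : List A} (ha : a ≠ []) (hb : b ≠ []) :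
    rmul L (mk L a) (mk L b) = mk L (a ++ b) := by
  by_cases h1 : a ∈ L
  · by_cases h2 : b ∈ L
    · rw [mk_of_mem L ⟨h1, ha⟩, mk_of_mem L ⟨h2, hb⟩]
      rfl
    · rw [mk_of_not_mem L (l := b) (fun h => h2 h.1), rmul_none,
        mk_of_not_mem L (l := a ++ b)]
      exact fun h => h2 (hfac _ h.1 b ⟨a, [], by simp⟩)
  · rw [mk_of_not_mem L (l := a) (fun h => h1 h.1), none_rmul,
        mk_of_not_mem L (l := a ++ b)]
    exact fun h => h1 (hfac _ h.1 a ⟨[], b, by simp⟩)

/-- every element is `none` or the class of a nonempty word -/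
theorem cases_mk (x : RQ L) : x = none ∨ ∃ l : List A, l ≠ [] ∧ l ∈ L ∧ x = mk L l := by
  cases x with
  | none => exact Or.inl rfl
  | some a => exact Or.inr ⟨a.1, a.2.2, a.2.1, (mk_of_mem L a.2).symm⟩

/-- The semigroup structure. -/
@[reducible] noncomputable def semi (hfac : ∀ w ∈ L, ∀ z : List A, z <:+: w → z ∈ L) :
    Semigroup (RQ L) where
  mul := rmul L
  mul_assoc := by
    intro a b c
    show rmul L (rmul L a b) c = rmul L a (rmul L b c)
    rcases cases_mk a with rfl | ⟨la, ha, -, rfl⟩
    · simp only [none_rmul]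
    rcases cases_mk b with rfl | ⟨lb, hb, -, rfl⟩
    · simp only [none_rmul, rmul_none]
    rcases cases_mk c with rfl | ⟨lc, hc, -, rfl⟩
    · simp only [rmul_none]
    rw [rmul_mk hfac ha hb, rmul_mk hfac hb hc, rmul_mk hfac (by simp [ha]) hc,
      rmul_mk hfac ha (by simp [hb]), List.append_assoc]

end Rees

theorem toL_mul (x y : FreeSemigroup ℕ) : toL (x * y) = toL x ++ toL y := rfl

theorem toL_of (x : ℕ) : toL (FreeSemigroup.of x) = [x] := rfl

theorem map_eq_none {A : Type} {L : Set (List A)}
    (hfac : ∀ w ∈ L, ∀ z : List A, z <:+: w → z ∈ L)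
    (f : letI := semi hfac; FreeSemigroup ℕ →ₙ* RQ L)
    (w : FreeSemigroup ℕ) (x : ℕ) (hx : x ∈ toL w)
    (hf : letI := semi hfac; f (FreeSemigroup.of x) = none) :
    letI := semi hfac; f w = none := by
  letI := semi hfac
  induction w using FreeSemigroup.recOnMul with
  | ih1 y =>
    rw [toL_of] at hx
    rw [← List.mem_singleton.1 hx]
    exact hf
  | ih2 y z hy hz =>
    rw [toL_mul, List.mem_append] at hx
    rw [map_mul]
    rcases hx with hx | hx
    · have := hy hx
      rw [this]
      exact none_rmul L _
    · have := hz hx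
      rw [this]
      exact rmul_none L _

theorem map_eq_mk {A : Type} {L : Set (List A)}
    (hfac : ∀ w ∈ L, ∀ z : List A, z <:+: w → z ∈ L)
    (f : letI := semi hfac; FreeSemigroup ℕ →ₙ* RQ L)
    (φ : ℕ → List A) (hφ : ∀ x, φ x ≠ [])
    (w : FreeSemigroup ℕ)
    (hf : letI := semi hfac; ∀ x ∈ toL w, f (FreeSemigroup.of x) = mk L (φ x)) :
    letI := semi hfac; f w = mk L ((toL w).flatMap φ) ∧ (toL w).flatMap φ ≠ [] := by
  letI := semi hfac
  induction w using FreeSemigroup.recOnMul with
  | ih1 y =>
    rw [toL_of]
    refine ⟨?_, ?_⟩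
    · have := hf y (by rw [toL_of]; exact List.mem_singleton.2 rfl)
      rw [this]
      simp
    · simpa using hφ y
  | ih2 y z hy hz =>
    have h1 := hy (fun x hx => hf x (by rw [toL_mul]; exact List.mem_append_left _ hx))
    have h2 := hz (fun x hx => hf x (by rw [toL_mul]; exact List.mem_append_right _ hx))
    rw [toL_mul, List.flatMap_append]
    refine ⟨?_, by simp [h1.2]⟩
    rw [map_mul, h1.1, h2.1]
    exact rmul_mk hfac h1.2 h2.2

/-- Part D -/
theorem partD (E : List (FreeSemigroup ℕ × FreeSemigroup ℕ))
    (hperm : ∀ p ∈ E, (toL p.1).Perm (toL p.2))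
    (A : Type) [Fintype A] (L : Set (List A))
    (hfac : ∀ w ∈ L, ∀ z : List A, z <:+: w → z ∈ L)
    (hcard : ∀ N : ℕ, ∃ f : (Fin N → Bool) → List A,
      Function.Injective f ∧ ∀ b, f b ∈ L ∧ (f b).length = N)
    (hE : ∀ p ∈ E, ∀ φ : ℕ → List A, (∀ x, φ x ≠ []) →
      ((toL p.1).flatMap φ ∈ L → (toL p.2).flatMap φ = (toL p.1).flatMap φ) ∧
      ((toL p.2).flatMap φ ∈ L → (toL p.1).flatMap φ = (toL p.2).flatMap φ)) :
    Concl E := by
  classical
  letI := semi hfac
  have hA : Nonempty A := by
    obtain ⟨f, -, hf⟩ := hcard 1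
    have h := (hf (fun _ => true)).2
    cases hl : f (fun _ => true) with
    | nil => rw [hl] at h; simp at h
    | cons a l => exact ⟨a⟩
  obtain ⟨a0⟩ := hA
  refine ⟨RQ L, semi hfac, ?_, ?_⟩
  · intro p hp f
    by_cases hnone : ∃ x ∈ toL p.1, f (FreeSemigroup.of x) = none
    · obtain ⟨x, hx, hfx⟩ := hnone
      rw [map_eq_none hfac f p.1 x hx hfx,
        map_eq_none hfac f p.2 x ((hperm p hp).mem_iff.1 hx) hfx]
    · push Not at hnone
      -- the words
      have hex : ∀ x : ℕ, ∃ l : List A, l ≠ [] ∧
          (f (FreeSemigroup.of x) ≠ none → f (FreeSemigroup.of x) = mk L l) := by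
        intro x
        rcases cases_mk (f (FreeSemigroup.of x)) with h | ⟨l, hl, -, h⟩
        · exact ⟨[a0], by simp, fun h' => absurd h h'⟩
        · exact ⟨l, hl, fun _ => h⟩
      choose φ hφ1 hφ2 using hex
      have h1 := map_eq_mk hfac f φ hφ1 p.1 (fun x hx => hφ2 x (hnone x hx))
      have h2 := map_eq_mk hfac f φ hφ1 p.2
        (fun x hx => hφ2 x (hnone x ((hperm p hp).mem_iff.2 hx)))
      rw [h1.1, h2.1]
      obtain ⟨e1, e2⟩ := hE p hp φ hφ1
      by_cases m1 : (toL p.1).flatMap φ ∈ L
      · rw [e1 m1]
      · by_cases m2 : (toL p.2).flatMap φ ∈ L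
        · rw [e2 m2]
        · rw [mk_of_not_mem L (fun h => m1 h.1), mk_of_not_mem L (fun h => m2 h.1)]
  · -- generators
    let e : A ≃ Fin (Fintype.card A) := Fintype.equivFin A
    let g : Fin (Fintype.card A + 1) → RQ L := fun i =>
      if h : i.1 < Fintype.card A then mk L [e.symm ⟨i.1, h⟩] else none
    let idx : A → Fin (Fintype.card A + 1) := fun a => (e a).castSucc
    have hg : ∀ a : A, g (idx a) = mk L [a] := by
      intro a
      have h : (idx a).1 < Fintype.card A := (e a).2
      show (if h : (idx a).1 < Fintype.card A then mk L [e.symm ⟨(idx a).1, h⟩] else none) = _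
      rw [dif_pos h]
      have : e.symm ⟨(idx a).1, h⟩ = a := by
        rw [Equiv.symm_apply_eq]
        rfl
      rw [this]
    have hglast : g (Fin.last _) = none := by
      show (if h : (Fin.last (Fintype.card A)).1 < Fintype.card A then _ else none) = _
      rw [dif_neg (by simp)]
    -- values of words
    have hval : ∀ (l : List A) (a : A), FreeSemigroup.lift g ⟨idx a, l.map idx⟩ =
        mk L (a :: l) := by
      intro l
      induction l with
      | nil =>
        intro a
        rw [← hg a]
        rfl
      | cons b l ih =>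
        intro a
        have h1 : (⟨idx a, (b :: l).map idx⟩ : FreeSemigroup (Fin (Fintype.card A + 1))) =
            FreeSemigroup.of (idx a) * ⟨idx b, l.map idx⟩ := rfl
        rw [h1, map_mul, ih b, FreeSemigroup.lift_of, hg a]
        exact rmul_mk hfac (by simp) (by simp)
    refine ⟨Fintype.card A + 1, g, ?_, 2, by norm_num, 1, ?_⟩
    · rw [Subsemigroup.eq_top_iff']
      intro x
      rcases cases_mk x with rfl | ⟨l, hl, -, rfl⟩
      · exact Subsemigroup.subset_closure ⟨Fin.last _, hglast⟩
      · have key : ∀ (l : List A) (a : A), mk L (a :: l) ∈ Subsemigroup.closure (Set.range g) := by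
          intro l
          induction l with
          | nil =>
            intro a
            exact Subsemigroup.subset_closure ⟨idx a, hg a⟩
          | cons b l ih =>
            intro a
            have h1 : mk L (a :: b :: l) = mk L [a] * mk L (b :: l) :=
              (rmul_mk hfac (a := [a]) (b := b :: l) (by simp) (by simp)).symm
            rw [h1]
            exact mul_mem (Subsemigroup.subset_closure ⟨idx a, hg a⟩) (ih b)
        cases l with
        | nil => exact absurd rfl hl
        | cons a l => exact key l a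
    · intro n hn
      obtain ⟨f, hinj, hf⟩ := hcard n
      set X : Set (RQ L) := {x | ∃ w : FreeSemigroup (Fin (Fintype.card A + 1)),
              w.tail.length < n ∧ FreeSemigroup.lift g w = x} with hX
      have hfin : X.Finite := by
        have h1 : {w : FreeSemigroup (Fin (Fintype.card A + 1)) | w.tail.length < n}.Finite := by
          have h2 : (Set.univ ×ˢ {l : List (Fin (Fintype.card A + 1)) | l.length < n} :
              Set (Fin (Fintype.card A + 1) × List (Fin (Fintype.card A + 1)))).Finite :=
            Set.finite_univ.prod (List.finite_length_lt _ n)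
          refine Set.Finite.subset (h2.image (fun q => ⟨q.1, q.2⟩)) ?_
          intro w hw
          exact ⟨(w.head, w.tail), ⟨Set.mem_univ _, hw⟩, rfl⟩
        refine Set.Finite.subset (h1.image (FreeSemigroup.lift g)) ?_
        rintro x ⟨w, hw, rfl⟩
        exact ⟨w, hw, rfl⟩
      have hmemX : ∀ b, mk L (f b) ∈ X := by
        intro b
        obtain ⟨-, hlen⟩ := hf b
        cases hl : f b with
        | nil => rw [hl] at hlen; simp at hlen; omega
        | cons a l =>
          refine ⟨⟨idx a, l.map idx⟩, ?_, hval l a⟩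
          rw [hl] at hlen
          simp only [List.length_cons] at hlen
          show (l.map idx).length < n
          rw [List.length_map]
          omega
      haveI : Finite X := hfin
      have hcount : Nat.card (Fin n → Bool) ≤ Nat.card X := by
        refine Nat.card_le_card_of_injective (fun b => (⟨mk L (f b), hmemX b⟩ : X)) ?_
        intro b b' hbb
        have h1 : mk L (f b) = mk L (f b') := congrArg Subtype.val hbb
        have hne : ∀ b, f b ∈ L ∧ f b ≠ [] := by
          intro b
          refine ⟨(hf b).1, ?_⟩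
          intro h0
          have := (hf b).2
          rw [h0] at this
          simp at this
          omega
        rw [mk_of_mem L (hne b), mk_of_mem L (hne b')] at h1
        have h2 := Option.some.inj h1
        exact hinj (congrArg Subtype.val h2)
      have h3 : Nat.card (Fin n → Bool) = 2 ^ n := by
        rw [Nat.card_eq_fintype_card]; simp
      rw [h3] at hcount
      exact_mod_cast hcount

end Pool.Agent.Helper18.SG
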